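import Pool.Agent.U574.FS.Main

/-!
# The curvature term can increase the effective burning velocity of a three-dimensional shear flow

We disprove Q1 of MP_d0383e: there are a smooth, periodic, non-constant shear profile `f`, a Markstein
number `d > 0`, an intensity `A > 0` and a unit vector `P` with `p₃ ≠ 0` such that the effective burning
velocity `H(P, d, A)` exists and is strictly larger than `H(P, 0, A)`.

Take `P = (3/5, 0, 4/5)` and `A = 1`. For a smooth periodic `v` let `w = P · X + v(x₁, x₂)` and define `f`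
by `A p₃ f = 1 - (1 - d κ(w)) |Dw|`, where `κ = div (Dw / |Dw|)`. Then `w - t` is a smooth solution of the
curvature G-equation, so the velocity is `1`. If there is a periodic `z` with
`Dw · Dz + κ |Dw|² < 0` everywhere, then `w + d z - c₀ t` is for some `c₀ < 1` and small `d > 0` a smooth
subsolution of the equation without curvature, whose velocity is therefore at most `c₀`. With
`v = (e (cos 2πx₁ cos 4πx₂ + sin 2πx₁) + e² b(x₂)) / 2π`, `z = a(x₂) + e y₁ + e² y₂` and suitable explicit
trigonometric polynomials `a, b, y₁, y₂` the left-hand side is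
`2π (e² (-6/5 + (3/5) cos 2πx₂) + O(e³))`. The viscosity solutions are compared with the smooth barriers.

The definitions `Fn`, `d1`, `d2`, `d3`, `dt`, `nrm`, `curv`, `op`, `IsTest`, `IsSubsolution`,
`IsSupersolution`, `IsSolution` are in `Pool.Agent.U574.FS.Visc`, `HasVelocity` is in
`Pool.Agent.U574.FS.Main`.
-/

set_option autoImplicit false

namespace Pool.Agent.Results.MP_d0383e_an.CurvatureSpeedsUp

open Filter Topology Pool.Agent.U574.FS

/-- There are a smooth, Lipschitz, `ℤ²`-periodic, non-constant `f`, numbers `d, A > 0`, a unit vector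
`P = (p₁, p₂, p₃)` with `p₃ ≠ 0` and `c₀ < 1` such that every viscosity solution of the curvature
G-equation with Markstein number `d` and `G(X, 0) = P · X` has the effective burning velocity `1`, and
for every viscosity solution of the G-equation without curvature (`d = 0`) the upper limit of
`-(G(X, t) - P · X) / t` is at most `c₀`; in particular its effective burning velocity is at most `c₀`. -/
theorem result : ∃ (f : ℝ → ℝ → ℝ) (d A p₁ p₂ p₃ c₀ : ℝ),
    (∀ n : ℕ, ContDiff ℝ n (fun q : ℝ × ℝ => f q.1 q.2)) ∧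
    (∃ K, LipschitzWith K (fun q : ℝ × ℝ => f q.1 q.2)) ∧
    (∀ x y, f (x + 1) y = f x y ∧ f x (y + 1) = f x y) ∧
    (∃ x y x' y', f x y ≠ f x' y') ∧
    0 < d ∧ 0 < A ∧ p₁ ^ 2 + p₂ ^ 2 + p₃ ^ 2 = 1 ∧ p₃ ≠ 0 ∧ c₀ < 1 ∧
    (∀ G, IsSolution f d A p₁ p₂ p₃ G → HasVelocity p₁ p₂ p₃ G 1) ∧
    (∀ G, IsSolution f 0 A p₁ p₂ p₃ G →
      (∀ x y z, ∀ δ > 0, ∀ᶠ t in atTop,
        -((G x y z t - (p₁ * x + p₂ * y + p₃ * z)) / t) ≤ c₀ + δ) ∧
      ∀ H, HasVelocity p₁ p₂ p₃ G H → H ≤ c₀) := by
  obtain ⟨f, d, c₀, hf1, hf2, hf3, hf4, hd, hc, hmain, hzero⟩ := main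
  refine ⟨f, d, 1, 3 / 5, 0, 4 / 5, c₀, hf1, hf2, hf3, hf4, hd, one_pos, by norm_num, by norm_num,
    hc, ?_, ?_⟩
  · intro G hG x y z
    obtain ⟨K, hK⟩ := hmain G hG
    have h1 : Tendsto (fun t : ℝ => 1 - (G x y z t - (3 / 5 * x + 0 * y + 4 / 5 * z - t)) / t) atTop
        (𝓝 (1 - 0)) := by
      refine tendsto_const_nhds.sub ?_
      refine squeeze_zero_norm' (a := fun t : ℝ => K / t) ?_ (tendsto_const_nhds.div_atTop tendsto_id)
      filter_upwards [eventually_gt_atTop 0] with t ht
      rw [norm_div, Real.norm_eq_abs, Real.norm_eq_abs, abs_of_pos ht]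
      exact div_le_div_of_nonneg_right (hK x y z t ht.le) ht.le
    rw [sub_zero] at h1
    refine h1.congr' ?_
    filter_upwards [eventually_gt_atTop 0] with t ht
    field_simp
    ring
  · intro G hG
    obtain ⟨K, hK⟩ := hzero G hG
    have key : ∀ x y z, ∀ δ > 0, ∀ᶠ t in atTop,
        -((G x y z t - (3 / 5 * x + 0 * y + 4 / 5 * z)) / t) ≤ c₀ + δ := by
      intro x y z δ hδ
      filter_upwards [eventually_gt_atTop 0, eventually_ge_atTop (K / δ)] with t ht ht2
      have h1 := hK x y z t ht.le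
      have h2 : K ≤ δ * t := by
        rw [div_le_iff₀ hδ] at ht2
        linarith
      rw [← neg_div, div_le_iff₀ ht]
      linarith
    refine ⟨key, fun H hH => ?_⟩
    refine le_of_forall_pos_le_add fun δ hδ => ?_
    exact le_of_tendsto (hH 0 0 0) (key 0 0 0 δ hδ)

end Pool.Agent.Results.MP_d0383e_an.CurvatureSpeedsUp
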